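import Pool.Agent.Lib.MP_598a87_lc.Dichotomy

/-!
# The never cardinals and the cofinality of the continuum

An almost disjoint family of size at least the cofinality of `2 ^ ℵ₀` has property (a) or is countably paracompact
only if the dominating number is less than `2 ^ ℵ₀` (and more). So `v_a` and `v_cp` are at most the cofinality of
`2 ^ ℵ₀`, or the dominating number is less than `2 ^ ℵ₀`.
-/

namespace Pool.Agent.Results.MP_598a87_lc.CofinalityBound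

open NeverCard
open scoped Cardinal Ordinal

theorem result :
    (∀ κ : Cardinal.{0}, ((2 : Cardinal.{0}) ^ ℵ₀).ord.cof ≤ κ → ∀ 𝒜 : Set (Set ℕ), IsAD 𝒜 → #𝒜 = κ →
      (PropA (Psi 𝒜) ∨ CParacompact (Psi 𝒜)) → DLtC ∧ Thin κ) ∧
    ((va ≤ ((2 : Cardinal.{0}) ^ ℵ₀).ord.cof ∧ vcp ≤ ((2 : Cardinal.{0}) ^ ℵ₀).ord.cof) ∨
      (DLtC ∧ Thin ((2 : Cardinal.{0}) ^ ℵ₀).ord.cof)) ∧
    (((2 : Cardinal.{0}) ^ ℵ₀).ord.cof = ℵ₁ → (va = ℵ₁ ∧ vcp = ℵ₁) ∨ (DLtC ∧ Thin ℵ₁)) :=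
  ⟨fun _ hc _ h𝒜 hA h => cof_family hc h𝒜 hA h, cof_never, cof_never_one⟩

end Pool.Agent.Results.MP_598a87_lc.CofinalityBound
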