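import Pool.Agent.Lib.MP_598a87_lc.Delta

/-!
# The never cardinals `v_a` and `v_cp` are equal
-/

namespace Pool.Agent.Results.MP_598a87_lc.DeltaSets

open NeverCard
open scoped Cardinal

theorem result :
    (∀ κ : Cardinal.{0}, List.TFAE [
      ∃ 𝒜 : Set (Set ℕ), IsAD 𝒜 ∧ #𝒜 = κ ∧ PropA (Psi 𝒜),
      ∃ 𝒜 : Set (Set ℕ), IsAD 𝒜 ∧ #𝒜 = κ ∧ CParacompact (Psi 𝒜),
      ∃ 𝒜 : Set (Set ℕ), IsAD 𝒜 ∧ #𝒜 = κ ∧ PropA (Psi 𝒜) ∧ CParacompact (Psi 𝒜),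
      ∃ X : Set (ℕ → Bool), #X = κ ∧ IsDelta X]) ∧
    va = sInf {κ : Cardinal.{0} | ¬ ∃ X : Set (ℕ → Bool), #X = κ ∧ IsDelta X} ∧ vcp = va := by
  refine ⟨main, ?_, ?_⟩
  · unfold va
    congr 1
    ext κ
    exact not_congr ((main κ).out 0 3)
  · unfold va vcp
    congr 1
    ext κ
    exact not_congr ((main κ).out 1 0)

end Pool.Agent.Results.MP_598a87_lc.DeltaSets
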