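import Pool.Agent.Lib.MP_598a87_lc.Dichotomy

/-!
# A Jones-type lemma for property (a) and countable paracompactness of Psi-spaces

An almost disjoint family of size `κ` with one of the properties exists only if `2 ^ κ = 2 ^ ℵ₀`, or `2 ^ ℵ₀` is at
least `ℵ_ω₁` and a covering property fails below it. So `2 ^ ℵ₀ < 2 ^ ℵ₁` implies `v_a = v_cp = ℵ₁`, or the same
exception.
-/

namespace Pool.Agent.Results.MP_598a87_lc.SmallContinuum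

open NeverCard
open scoped Cardinal Ordinal

theorem result :
    (∀ κ : Cardinal.{0}, ℵ₀ ≤ κ → ∀ 𝒜 : Set (Set ℕ), IsAD 𝒜 → #𝒜 = κ → (PropA (Psi 𝒜) ∨ CParacompact (Psi 𝒜)) →
      (2 : Cardinal.{0}) ^ κ = 2 ^ ℵ₀ ∨ (ℵ_ ω₁ ≤ (2 : Cardinal.{0}) ^ ℵ₀ ∧ ∃ θ ≤ κ, ℵ₀ < θ ∧ ¬ Cov θ)) ∧
    ((2 : Cardinal.{0}) ^ ℵ₀ < 2 ^ ℵ₁ →
      (va = ℵ₁ ∧ vcp = ℵ₁) ∨ (ℵ_ ω₁ ≤ (2 : Cardinal.{0}) ^ ℵ₀ ∧ ¬ Cov ℵ₁)) :=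
  ⟨fun _ hκ _ h𝒜 hA h => small_power hκ h𝒜 hA h, small_never⟩

end Pool.Agent.Results.MP_598a87_lc.SmallContinuum
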